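import Pool.Agent.V5helper14.FB.Stm

/-!
# Project FB, job CONV: from forests to orderings
-/

set_option autoImplicit false

namespace Pool.Agent.V5helper69.FB

open Finset
open Pool.Agent.V5helper14.FB

lemma lt_of_pair {a b c : ℕ} (h : Nat.pair a b < Nat.pair a c) : b < c := by
  by_contra hcon
  rcases (not_lt.1 hcon).eq_or_lt with h1 | h1
  · rw [h1] at h
    exact lt_irrefl _ h
  · exact lt_asymm h (Nat.pair_lt_pair_right a h1)

theorem t_CONV (hA : S_ACY) : S_CONV := by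
  rintro r k H ⟨f, h1, h2, h3⟩
  have h4 : ∀ i : ℕ, ∃ g : {v | f v = i} → ℕ, Function.Injective g ∧
      ∀ v u u', (H.induce {v | f v = i}).Adj v u → (H.induce {v | f v = i}).Adj v u' → g u < g v →
        g u' < g v → u = u' := fun i => hA _ _ (h1 i)
  choose g hg1 hg2 using h4
  have hcast : ∀ (u : Fin k) (i : ℕ) (h : f u = i), g (f u) ⟨u, rfl⟩ = g i ⟨u, h⟩ := by
    rintro u _ rfl
    rfl
  refine ⟨f, fun v => Nat.pair (f v) (g (f v) ⟨v, rfl⟩), ?_, ?_, h2, h3⟩
  · intro u v huv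
    obtain ⟨h5, h6⟩ := Nat.pair_eq_pair.1 huv
    rw [hcast u (f v) h5] at h6
    exact congrArg Subtype.val (hg1 (f v) h6)
  · intro v u u' hu hu' hfu hfu' hlt hlt'
    simp only at hlt hlt'
    rw [hcast u (f v) hfu, hfu] at hlt
    rw [hcast u' (f v) hfu', hfu'] at hlt'
    have h5 := hg2 (f v) ⟨v, rfl⟩ ⟨u, hfu⟩ ⟨u', hfu'⟩ hu hu' (lt_of_pair hlt) (lt_of_pair hlt')
    exact congrArg Subtype.val h5

end Pool.Agent.V5helper69.FB
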